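import Mathlib

/-!
# MP_bd4052_lc: the algorithm, generic in the type of numbers
-/

set_option autoImplicit false

namespace Pool.Agent.Work.MP_bd4052_lc

/-- Operations on numbers used by the algorithm. -/
class Num (K : Type) where
  zero : K
  add : K → K → K
  neg : K → K
  lt : K → K → Bool

noncomputable instance : Num ℝ where
  zero := 0
  add := (· + ·)
  neg := fun x => -x
  lt := fun x y => decide (x < y)

section

variable {K : Type} [Num K]

/-- subtraction -/
def nsub (x y : K) : K := Num.add x (Num.neg y)

/-- equality test -/
def neqb (x y : K) : Bool := !(Num.lt x y) && !(Num.lt y x)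

/-- `n_i · (x, y)` for the direction `i` (`n_0 = (1,0), n_1 = (1,1), n_2 = (0,1), ...`) -/
def ndot (i : ℕ) (x y : K) : K :=
  bif decide (i = 0) then x
  else bif decide (i = 1) then Num.add x y
  else bif decide (i = 2) then y
  else bif decide (i = 3) then nsub y x
  else bif decide (i = 4) then Num.neg x
  else bif decide (i = 5) then nsub (Num.neg x) y
  else bif decide (i = 6) then Num.neg y
  else nsub x y

/-- `b - λ_{ij} d`, where `λ_{ij} = 2 (n_i · n_j) / |n_j|²` -/
def nlam (i j : ℕ) (b d : K) : K :=
  bif decide ((i + 8 - j) % 8 = 0) then nsub (nsub b d) d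
  else bif decide ((i + 8 - j) % 8 = 4) then Num.add (Num.add b d) d
  else bif decide ((i + 8 - j) % 8 = 1) || decide ((i + 8 - j) % 8 = 7) then
    (bif decide (j % 2 = 0) then nsub (nsub b d) d else nsub b d)
  else bif decide ((i + 8 - j) % 8 = 3) || decide ((i + 8 - j) % 8 = 5) then
    (bif decide (j % 2 = 0) then Num.add (Num.add b d) d else Num.add b d)
  else b

/-- A constraint `(i, b)` stands for the open half-plane `n_i · z < b`. -/
abbrev Con (K : Type) : Type := ℕ × K

/-- A cap `((i, d), val)` stands for the part `n_i · z > d` of the sheet; `val` is the label of the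
crease. -/
abbrev Cap (K : Type) : Type := (ℕ × K) × Bool

/-- A rectangle `((x0, x1), (y0, y1))`. -/
abbrev Rec (K : Type) : Type := (K × K) × (K × K)

/-- A crease `((p, q), val)`. -/
abbrev Cr (K : Type) : Type := ((K × K) × (K × K)) × Bool

/-- the opposite half-plane of a constraint line: `n_i · z > d` as a constraint -/
def cneg (c : Con K) : Con K := ((c.1 + 4) % 8, Num.neg c.2)

/-- the constraints of the sheet (the diagonal ones are redundant) -/
def rectC (r : Rec K) : List (Con K) :=
  [(0, r.1.2), (1, Num.add r.1.2 r.2.2), (2, r.2.2), (3, nsub r.2.2 r.1.1), (4, Num.neg r.1.1),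
    (5, nsub (Num.neg r.1.1) r.2.1), (6, Num.neg r.2.1), (7, nsub r.1.2 r.2.1)]

/-- image of a constraint under the reflection in the line `n_j · z = d` -/
def creflect (j : ℕ) (d : K) (c : Con K) : Con K := ((2 * j + 12 - c.1) % 8, nlam c.1 j c.2 d)

/-- Does the system of constraints have a solution? (All eight directions occur.) -/
def ctest (L : List (Con K)) : Bool :=
  (L.all fun a => L.all fun b =>
    !(decide (b.1 = (a.1 + 4) % 8)) || Num.lt Num.zero (Num.add a.2 b.2)) &&
  (L.all fun a => L.all fun b => L.all fun c =>
    !(decide (b.1 = (a.1 + 3) % 8) && decide (c.1 = (a.1 + 6) % 8)) ||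
      Num.lt Num.zero (Num.add (Num.add a.2 c.2)
        (bif decide (a.1 % 2 = 0) then b.2 else Num.add b.2 b.2)))

/-! ### caps -/

/-- the cap is proper: its line crosses the interior of the sheet -/
def cproper (r : Rec K) (e : Con K) : Bool := ctest (cneg e :: rectC r) && ctest (e :: rectC r)

/-- `e ⊆ e'` -/
def csub (r : Rec K) (e e' : Con K) : Bool := !(ctest (cneg e :: e' :: rectC r))

/-- `e ∩ e' = ∅` -/
def cdisj (r : Rec K) (e e' : Con K) : Bool := !(ctest (cneg e :: cneg e' :: rectC r))

/-- `i`-th cap of the list -/
def capAt (C : List (Cap K)) (i : ℕ) : Cap K := C.getD i ((0, Num.zero), false)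

/-- sub-cap relation on indices -/
def isub (r : Rec K) (C : List (Cap K)) (i j : ℕ) : Bool := csub r (capAt C i).1 (capAt C j).1

/-- disjointness on indices -/
def idisj (r : Rec K) (C : List (Cap K)) (i j : ℕ) : Bool := cdisj r (capAt C i).1 (capAt C j).1

/-- all caps are proper and any two of them are nested or disjoint -/
def laminar (r : Rec K) (C : List (Cap K)) : Bool :=
  (List.range C.length).all fun i => cproper r (capAt C i).1 &&
    (List.range C.length).all fun j => decide (i = j) || isub r C i j || isub r C j i || idisj r C i j

/-- depth of a cap: number of caps containing it (with itself) -/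
def depth (r : Rec K) (C : List (Cap K)) (i : ℕ) : ℕ :=
  ((List.range C.length).filter fun j => isub r C i j).length

/-- the caps containing `i`, from the innermost to the outermost -/
def chain (r : Rec K) (C : List (Cap K)) (i : ℕ) : List ℕ :=
  (List.range C.length).flatMap fun k => (List.range C.length).filter fun j =>
    isub r C i j && decide (depth r C j + k = C.length)

/-- is the fold along the cap `i` an upward fold? -/
def upf (r : Rec K) (C : List (Cap K)) (i : ℕ) : Bool :=
  (capAt C i).2 != decide ((depth r C i - 1) % 2 = 1)

/-- the constraints of a piece after the folds of `dn`; piece `0` is the root, piece `j + 1` belongs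
to the cap `j` -/
def base (r : Rec K) (C : List (Cap K)) (dn : List ℕ) (k : ℕ) : List (Con K) :=
  rectC r ++
    (bif decide (k = 0) then dn.map (fun i => (capAt C i).1)
     else cneg (capAt C (k - 1)).1 ::
      ((dn.filter fun i => isub r C i (k - 1) && !(decide (i = k - 1))).map fun i => (capAt C i).1))

/-- the list of the caps containing the piece, from the innermost to the outermost -/
def pchain (r : Rec K) (C : List (Cap K)) (k : ℕ) : List ℕ :=
  bif decide (k = 0) then [] else chain r C (k - 1)

/-- move a system of constraints by the folds of a chain -/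
def move (C : List (Cap K)) (ch : List ℕ) (L : List (Con K)) : List (Con K) :=
  ch.foldl (fun L j => L.map (creflect (capAt C j).1.1 (capAt C j).1.2)) L

/-- the folded position of the piece `k` -/
def region (r : Rec K) (C : List (Cap K)) (dn : List ℕ) (k : ℕ) : List (Con K) :=
  move C (pchain r C k) (base r C dn k)

/-- the folded position of the part that is rotated by the fold along the cap `e` of the piece `k` -/
def rotreg (r : Rec K) (C : List (Cap K)) (k e : ℕ) : List (Con K) :=
  move C (pchain r C k) (cneg (capAt C e).1 :: rectC r)

/-- the pieces above (`up = true`) or below (`up = false`) of the piece `k`, if the folds `dn` have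
been made, and the folds `dp` were the folds up to the fold of `k` (`[]` for the root) -/
def side (r : Rec K) (C : List (Cap K)) (dn dp : List ℕ) (k : ℕ) (up : Bool) : List ℕ :=
  ((dn.filter fun j => !(dp.contains j) && (upf r C j == up)).map fun j => j + 1) ++
  (bif decide (k = 0) then [] else
    bif upf r C (k - 1) == up then [] else
      0 :: ((dp.filter fun j => !(decide (j = k - 1))).map fun j => j + 1))

/-- the fold along the cap `e` of the piece `k` is not blocked -/
def unblocked (r : Rec K) (C : List (Cap K)) (dn dp : List ℕ) (k e : ℕ) : Bool :=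
  (side r C dn dp k (upf r C e)).all fun k' => !(ctest (region r C dn k' ++ rotreg r C k e))

/-! ### the search -/

/-- does the cap `e` contain the corner `c < 4` of the sheet? -/
def inCorner (r : Rec K) (C : List (Cap K)) (c e : ℕ) : Bool :=
  Num.lt (capAt C e).1.2 (ndot (capAt C e).1.1
    (bif decide (c = 0) || decide (c = 3) then r.1.1 else r.1.2)
    (bif decide (c = 0) || decide (c = 1) then r.2.1 else r.2.2))

/-- the folds that have been made, from the tips (`t = 0`: no tip, `t = j + 1`: tip `j`) -/
def made (r : Rec K) (C : List (Cap K)) (T : List ℕ) : List ℕ :=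
  (List.range C.length).filter fun j => T.any fun t => !(decide (t = 0)) && isub r C (t - 1) j

/-- States of the search: the tips at the four corners, and for every corner the tips at the time
when the tip of the corner was folded. -/
abbrev St : Type := List ℕ × List (List ℕ)

/-- a corner of the cap `e` -/
def cornerOf (r : Rec K) (C : List (Cap K)) (e : ℕ) : ℕ :=
  bif inCorner r C 0 e then 0 else bif inCorner r C 1 e then 1 else bif inCorner r C 2 e then 2 else 3

/-- the fold along the cap `e` is possible -/
def okStep (r : Rec K) (C : List (Cap K)) (s : St) (e : ℕ) : Bool :=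
  !((made r C s.1).contains e) &&
  ((List.range C.length).all fun j => !(isub r C e j) || decide (j = e) || (made r C s.1).contains j) &&
  unblocked r C (made r C s.1)
    (bif decide (s.1.getD (cornerOf r C e) 0 = 0) then [] else made r C (s.2.getD (cornerOf r C e) []))
    (s.1.getD (cornerOf r C e) 0) e

/-- the tips after the fold along the cap `e` -/
def newTips (r : Rec K) (C : List (Cap K)) (T : List ℕ) (e : ℕ) : List ℕ :=
  (List.range 4).map fun c => bif inCorner r C c e then e + 1 else T.getD c 0

/-- the state after the fold along the cap `e` -/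
def doStep (r : Rec K) (C : List (Cap K)) (s : St) (e : ℕ) : St :=
  (newTips r C s.1 e, (List.range 4).map fun c =>
    bif inCorner r C c e then newTips r C s.1 e else s.2.getD c [])

/-- all lists of length `n` with entries from `l` -/
def tuples {α : Type} (l : List α) : ℕ → List (List α)
  | 0 => [[]]
  | n + 1 => (tuples l n).flatMap fun t => l.map fun a => a :: t

/-- all states -/
def allSt (m : ℕ) : List St :=
  (tuples (List.range (m + 1)) 4).flatMap fun T =>
    (tuples (tuples (List.range (m + 1)) 4) 4).map fun B => (T, B)

/-- the initial state -/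
def initSt : St := ([0, 0, 0, 0], [[0, 0, 0, 0], [0, 0, 0, 0], [0, 0, 0, 0], [0, 0, 0, 0]])

/-- the states reachable with one more fold -/
def nextSt (r : Rec K) (C : List (Cap K)) (l : List St) : List St :=
  (allSt C.length).filter fun s' => l.any fun s => (List.range C.length).any fun e =>
    okStep r C s e && decide (doStep r C s e = s')

/-- can all caps be folded? -/
def searchAll (r : Rec K) (C : List (Cap K)) : Bool :=
  !(((List.range C.length).foldl (fun l _ => nextSt r C l) [initSt]).isEmpty)

/-! ### from the creases to the caps -/

/-- the line of a crease, as `(i, d)` with `i < 4` -/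
def lineOf (c : Cr K) : Con K :=
  bif neqb c.1.1.1 c.1.2.1 then (0, c.1.1.1)
  else bif neqb c.1.1.2 c.1.2.2 then (2, c.1.1.2)
  else bif neqb (nsub c.1.2.1 c.1.1.1) (nsub c.1.2.2 c.1.1.2) then (3, nsub c.1.1.2 c.1.1.1)
  else (1, Num.add c.1.1.1 c.1.1.2)

/-- equality of lines -/
def leq (a b : Con K) : Bool := decide (a.1 = b.1) && neqb a.2 b.2

/-- coordinate along a line -/
def tcoord (i : ℕ) (p : K × K) : K := bif decide (i = 0) then p.2 else p.1

/-- the end of a crease with the smaller coordinate -/
def lowEnd (c : Cr K) : K × K :=
  bif Num.lt (tcoord (lineOf c).1 c.1.1) (tcoord (lineOf c).1 c.1.2) then c.1.1 else c.1.2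

/-- the end of a crease with the larger coordinate -/
def highEnd (c : Cr K) : K × K :=
  bif Num.lt (tcoord (lineOf c).1 c.1.1) (tcoord (lineOf c).1 c.1.2) then c.1.2 else c.1.1

/-- is the point on the boundary of the sheet? -/
def onBd (r : Rec K) (p : K × K) : Bool :=
  neqb p.1 r.1.1 || neqb p.1 r.1.2 || neqb p.2 r.2.1 || neqb p.2 r.2.2

/-- the creases on proper lines -/
def propCr (r : Rec K) (L : List (Cr K)) : List (Cr K) := L.filter fun c => cproper r (lineOf c)

/-- the proper creases fill whole chords, one label for each chord -/
def creOK (r : Rec K) (L : List (Cr K)) : Bool :=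
  (propCr r L).all fun c =>
    ((propCr r L).all fun c' => !(leq (lineOf c) (lineOf c')) || (c.2 == c'.2)) &&
    ((propCr r L).any fun c' => leq (lineOf c) (lineOf c') && onBd r (lowEnd c')) &&
    (onBd r (highEnd c) || (propCr r L).any fun c' => leq (lineOf c) (lineOf c') &&
      !(Num.lt (tcoord (lineOf c).1 (highEnd c)) (tcoord (lineOf c).1 (lowEnd c'))) &&
      Num.lt (tcoord (lineOf c).1 (highEnd c)) (tcoord (lineOf c).1 (highEnd c')))

/-- the different lines of the proper creases, with labels -/
def chords (r : Rec K) (L : List (Cr K)) : List (Cap K) :=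
  (propCr r L).foldl (fun acc c => bif acc.any (fun e => leq e.1 (lineOf c)) then acc
    else acc ++ [(lineOf c, c.2)]) []

/-- the orientation of the chord `e` compatible with the cap `a` -/
def orient (r : Rec K) (a e : Cap K) : Cap K :=
  bif leq a.1 e.1 || leq (cneg a.1) e.1 then (a.1, e.2)
  else bif csub r e.1 a.1 || cdisj r e.1 a.1 then e else (cneg e.1, e.2)

/-- THE ALGORITHM -/
def alg (r : Rec K) (L : List (Cr K)) : Bool :=
  creOK r L && ((chords r L).isEmpty || (chords r L).any fun e =>
    (laminar r ((chords r L).map (orient r e)) && searchAll r ((chords r L).map (orient r e))) ||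
    (laminar r ((chords r L).map (orient r (cneg e.1, e.2))) &&
      searchAll r ((chords r L).map (orient r (cneg e.1, e.2)))))

end

end Pool.Agent.Work.MP_bd4052_lc
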