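import Mathlib
import Pool.Agent.Work.TMLib.Classes

/-!
# MP_bd4052_lc: one-layer simple foldability of maps with diagonal creases: definitions
-/

set_option autoImplicit false

namespace Pool.Agent.Work.MP_bd4052_lc

/-- Points of the plane. -/
abbrev Pt : Type := ℝ × ℝ

/-- A crease: a segment with rational end points `p`, `q`, labelled valley (`val = true`) or
mountain (`val = false`). -/
structure Crease where
  p : ℚ × ℚ
  q : ℚ × ℚ
  val : Bool

/-- A rectangle `[x0, x1] × [y0, y1]` with a list of creases. -/
structure PaperMap where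
  x0 : ℚ
  x1 : ℚ
  y0 : ℚ
  y1 : ℚ
  creases : List Crease

/-- A rational point as a point of the plane. -/
def toPt (p : ℚ × ℚ) : Pt := ((p.1 : ℝ), (p.2 : ℝ))

namespace PaperMap

/-- The sheet of paper (a closed rectangle). -/
def R (m : PaperMap) : Set Pt := {z | (m.x0 : ℝ) ≤ z.1 ∧ z.1 ≤ m.x1 ∧ (m.y0 : ℝ) ≤ z.2 ∧ z.2 ≤ m.y1}

/-- The interior of the sheet. -/
def inner (m : PaperMap) : Set Pt :=
  {z | (m.x0 : ℝ) < z.1 ∧ z.1 < m.x1 ∧ (m.y0 : ℝ) < z.2 ∧ z.2 < m.y1}

/-- The points on the creases with the label `b`. -/
def marked (m : PaperMap) (b : Bool) : Set Pt :=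
  {z | ∃ c ∈ m.creases, c.val = b ∧ z ∈ segment ℝ (toPt c.p) (toPt c.q)}

/-- Valid maps: a proper rectangle, creases inside of it that are horizontal, vertical or at
`±45°`. -/
def Valid (m : PaperMap) : Prop :=
  m.x0 < m.x1 ∧ m.y0 < m.y1 ∧ ∀ c ∈ m.creases, c.p ≠ c.q ∧
    (m.x0 ≤ c.p.1 ∧ c.p.1 ≤ m.x1 ∧ m.y0 ≤ c.p.2 ∧ c.p.2 ≤ m.y1) ∧
    (m.x0 ≤ c.q.1 ∧ c.q.1 ≤ m.x1 ∧ m.y0 ≤ c.q.2 ∧ c.q.2 ≤ m.y1) ∧
    (c.p.1 = c.q.1 ∨ c.p.2 = c.q.2 ∨ c.q.1 - c.p.1 = c.q.2 - c.p.2 ∨
      c.q.1 - c.p.1 = c.p.2 - c.q.2)

end PaperMap

/-- Reflection of the plane in the line `a₁ x + a₂ y = c`. -/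
noncomputable def refl (a : Pt) (c : ℝ) (z : Pt) : Pt :=
  (z.1 - 2 * (a.1 * z.1 + a.2 * z.2 - c) / (a.1 ^ 2 + a.2 ^ 2) * a.1,
    z.2 - 2 * (a.1 * z.1 + a.2 * z.2 - c) / (a.1 ^ 2 + a.2 ^ 2) * a.2)

/-- A layer of a flat folded state: the piece `S` of the sheet, the position `g` of its points in
the plane, and `flip = true` if the piece lies with its bottom side up. -/
structure Layer where
  S : Set Pt
  g : Pt → Pt
  flip : Bool

/-- A flat folded state: the layers from bottom to top, and the points of the sheet along which it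
has been folded so far, as a valley (`fold true`) or as a mountain (`fold false`). -/
structure State where
  layers : List Layer
  fold : Bool → Set Pt

/-- The unfolded sheet. -/
def initial (m : PaperMap) : State := ⟨[⟨m.R, id, false⟩], fun _ => ∅⟩

/-- The part of the layer that is rotated by a fold along the line `a₁ x + a₂ y = c` of the plane
(the side `a₁ x + a₂ y ≥ c`). -/
def Layer.rot (L : Layer) (a : Pt) (c : ℝ) : Set Pt :=
  {z | z ∈ L.S ∧ c ≤ a.1 * (L.g z).1 + a.2 * (L.g z).2}

/-- The part of the layer that stays in place. -/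
def Layer.rest (L : Layer) (a : Pt) (c : ℝ) : Set Pt :=
  {z | z ∈ L.S ∧ a.1 * (L.g z).1 + a.2 * (L.g z).2 ≤ c}

/-- A one-layer simple fold of the layer `L` of the state `s` (with the layers `below` below and
`above` above of it) in the line `a₁ x + a₂ y = c` of the plane, upwards (`up = true`) or downwards
(`up = false`); `t` is the resulting state.

* the line crosses the layer,
* the paper is not torn: the points that `L` shares with other layers are not moved,
* the rotated part is not blocked: no layer above (for an upward fold) or below (for a downward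
  fold) of `L` lies over (under) the rotated part,
* the part that stays in place and the rotated part become two layers; the rotated part becomes the
  top (bottom) layer,
* the points on the line become points of a valley fold if `up ≠ L.flip`, of a mountain fold
  otherwise. -/
structure SimpleFold (s t : State) (below above : List Layer) (L : Layer) (a : Pt) (c : ℝ)
    (up : Bool) : Prop where
  split : s.layers = below ++ L :: above
  line : a ≠ 0
  cross₁ : ∃ z ∈ L.S, c < a.1 * (L.g z).1 + a.2 * (L.g z).2
  cross₂ : ∃ z ∈ L.S, a.1 * (L.g z).1 + a.2 * (L.g z).2 < c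
  notear : ∀ L' ∈ below ++ above, ∀ z ∈ L.S, z ∈ L'.S → a.1 * (L.g z).1 + a.2 * (L.g z).2 ≤ c
  free : ∀ L' ∈ (if up then above else below),
    interior (L.g '' L.rot a c) ∩ interior (L'.g '' L'.S) = ∅
  layers : t.layers = if up then
      below ++ ⟨L.rest a c, L.g, L.flip⟩ :: above ++ [⟨L.rot a c, fun z => refl a c (L.g z), !L.flip⟩]
    else ⟨L.rot a c, fun z => refl a c (L.g z), !L.flip⟩ :: (below ++ ⟨L.rest a c, L.g, L.flip⟩ :: above)
  folds : ∀ b : Bool, t.fold b = if b = (up != L.flip) then
      s.fold b ∪ {z | z ∈ L.S ∧ a.1 * (L.g z).1 + a.2 * (L.g z).2 = c}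
    else s.fold b

/-- The states that can be reached by one-layer simple folds. -/
inductive Reachable (m : PaperMap) : State → Prop
  | start : Reachable m (initial m)
  | step {s t : State} {below above : List Layer} {L : Layer} {a : Pt} {c : ℝ} {up : Bool} :
      Reachable m s → SimpleFold s t below above L a c up → Reachable m t

/-- The map is simply foldable in the one-layer model: a flat folded state can be reached in which
the paper is folded exactly along the creases, each in its assigned direction. -/
def SimplyFoldable (m : PaperMap) : Prop :=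
  ∃ s, Reachable m s ∧ ∀ b : Bool, s.fold b ∩ m.inner = m.marked b ∩ m.inner

/-! ### encoding -/

/-- Binary encoding of a natural number (least significant bit first), followed by a separator. -/
def encNat (n : ℕ) : List (Option Bool) := n.bits.map some ++ [none]

/-- Encoding of a rational number: sign, numerator, denominator. -/
def encRat (r : ℚ) : List (Option Bool) :=
  some (decide (r < 0)) :: (encNat r.num.natAbs ++ encNat r.den)

/-- Encoding of a point. -/
def encPoint (p : ℚ × ℚ) : List (Option Bool) := encRat p.1 ++ encRat p.2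

/-- Encoding of a crease. -/
def encCrease (c : Crease) : List (Option Bool) := some c.val :: (encPoint c.p ++ encPoint c.q)

/-- Encoding of a map. -/
def encMap (m : PaperMap) : List (Option Bool) :=
  encRat m.x0 ++ encRat m.x1 ++ encRat m.y0 ++ encRat m.y1 ++ m.creases.flatMap encCrease

open Classical in
/-- FINAL RESULT: one-layer simple foldability is decidable in polynomial time. -/
def Stmt_Final : Prop :=
  TMLib.PolyTime (fun m : {m : PaperMap // m.Valid} => encMap m.1) (fun b : Bool => [b])
    (fun m => decide (SimplyFoldable m.1))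

end Pool.Agent.Work.MP_bd4052_lc
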