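import Pool.Agent.Work.MP_bd4052_lc.Model
import Pool.Agent.Work.TMLib.FP
import Pool.Agent.Work.MP_013ca9_lc_F.Binary

/-!
# MP_bd4052_lc: exact statements of the blocks

Every block proves `theorem stmt_X : Stmt_X` (or from other `Stmt_Y` as hypotheses) in
`Pool/Agent/Work/MP_bd4052_lc_<seat>/X.lean`, namespace `Pool.Agent.Work.MP_bd4052_lc`.
-/

set_option autoImplicit false

namespace Pool.Agent.Work.MP_bd4052_lc

open TMLib

/-! ## OCT: solvability of systems with the eight directions -/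

/-- BLOCK OCT -/
def Stmt_OCT : Prop := ∀ L : List (Con ℝ), (∀ c ∈ L, c.1 < 8) → (∀ i < 8, ∃ c ∈ L, c.1 = i) →
  (ctest L = true ↔ (sol L).Nonempty)

/-! ## GEO: elementary geometry -/

/-- BLOCK GEO1: linear functions and the rectangle. -/
def Stmt_GEO1 : Prop :=
  (∀ (i : ℕ) (z : Pt), dotR i z = (nvec i).1 * z.1 + (nvec i).2 * z.2) ∧
  (∀ i : ℕ, i < 8 → nvec i ≠ 0 ∧ ∀ z, dotR ((i + 4) % 8) z = -dotR i z) ∧
  (∀ e : Con ℝ, e.1 < 8 → (cneg e).1 < 8 ∧ cneg (cneg e) = e) ∧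
  ∀ r : Rec ℝ, RecOK r →
    sol (rectC r) = RI r ∧ interior (RS r) = RI r ∧ closure (RI r) = RS r ∧ IsOpen (RI r) ∧
    (RI r).Nonempty ∧ Convex ℝ (RI r) ∧ Convex ℝ (RS r) ∧
    -- points of the closed sheet are limits of interior points
    (∀ e : Con ℝ, ∀ z ∈ RS r, e.2 < dotR e.1 z → ∃ z' ∈ RI r, e.2 < dotR e.1 z') ∧
    -- for proper caps the inclusions hold on the closed sheet
    (∀ e f : Con ℝ, ProperS r f → SubS r e f → ∀ z ∈ RS r, e.2 < dotR e.1 z → f.2 < dotR f.1 z) ∧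
    (∀ e f : Con ℝ, ProperS r f → DisjS r e f → ∀ z ∈ RS r, e.2 < dotR e.1 z → dotR f.1 z < f.2) ∧
    -- points of the closed cap are limits of points of the open cap
    (∀ e : Con ℝ, ProperS r e → {z | z ∈ RS r ∧ e.2 ≤ dotR e.1 z} =
      closure {z | z ∈ RI r ∧ e.2 < dotR e.1 z}) ∧
    -- the line of a proper cap meets the interior
    (∀ e : Con ℝ, ProperS r e → ∃ z ∈ RI r, dotR e.1 z = e.2) ∧
    -- mutual inclusion, complementary caps
    (∀ e f : Con ℝ, e.1 < 8 → f.1 < 8 → ProperS r e → ProperS r f → SubS r e f → SubS r f e →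
      e = f) ∧
    (∀ e f : Con ℝ, e.1 < 8 → f.1 < 8 → ProperS r e → ProperS r f → DisjS r e f →
      (∀ z ∈ RI r, e.2 < dotR e.1 z ∨ f.2 < dotR f.1 z ∨ dotR e.1 z = e.2) → e = cneg f) ∧
    -- the four kinds of position of two chords that do not cross
    (∀ e f : Con ℝ, ProperS r e → ProperS r f →
      (∀ z ∈ RI r, f.2 < dotR f.1 z → dotR e.1 z ≠ e.2) → (∃ z ∈ RI r, f.2 < dotR f.1 z ∧
      e.2 < dotR e.1 z) → SubS r f e)

/-- BLOCK GEO2: the tests. -/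
def Stmt_GEO2 : Prop := ∀ r : Rec ℝ, RecOK r →
  (∀ e : Con ℝ, e.1 < 8 → (cproper r e = true ↔ ProperS r e)) ∧
  (∀ e f : Con ℝ, e.1 < 8 → f.1 < 8 → (csub r e f = true ↔ SubS r e f)) ∧
  (∀ e f : Con ℝ, e.1 < 8 → f.1 < 8 → (cdisj r e f = true ↔ DisjS r e f)) ∧
  (∀ x y : ℝ, neqb x y = true ↔ x = y) ∧ (∀ e f : Con ℝ, leq e f = true ↔ e = f)

/-- BLOCK REF: reflections. -/
def Stmt_REF : Prop :=
  (∀ (c : Con ℝ), c.1 < 8 → ∀ z, rf c (rf c z) = z) ∧
  (∀ (j : ℕ) (d : ℝ) (L : List (Con ℝ)), j < 8 → (∀ c ∈ L, c.1 < 8) →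
    sol (L.map (creflect j d)) = rf (j, d) '' sol L ∧
    (∀ c ∈ L.map (creflect j d), c.1 < 8) ∧
    ((∀ i < 8, ∃ c ∈ L, c.1 = i) → ∀ i < 8, ∃ c ∈ L.map (creflect j d), c.1 = i)) ∧
  -- the maps `gm` are isometric and preserve interiors
  (∀ l : List (Cap ℝ), (∀ f ∈ l, f.1.1 < 8) →
    Function.Bijective (gm l) ∧ Continuous (gm l) ∧
    (∀ S : Set Pt, interior (gm l '' S) = gm l '' interior S) ∧
    -- lines of the paper become lines of the plane and conversely; reflections are conjugate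
    (∀ (a : Pt) (c : ℝ), a ≠ 0 → ∃ (a' : Pt) (c' : ℝ), a' ≠ 0 ∧
      (∀ z, a.1 * (gm l z).1 + a.2 * (gm l z).2 - c = a'.1 * z.1 + a'.2 * z.2 - c') ∧
      ∀ z, refl a c (gm l z) = gm l (refl a' c' z)) ∧
    (∀ (a : Pt) (c : ℝ), a ≠ 0 → ∃ (a' : Pt) (c' : ℝ), a' ≠ 0 ∧
      (∀ z, a'.1 * (gm l z).1 + a'.2 * (gm l z).2 - c' = a.1 * z.1 + a.2 * z.2 - c) ∧
      ∀ z, refl a' c' (gm l z) = gm l (refl a c z))) ∧
  -- the algorithm moves systems of constraints in the same way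
  (∀ (C : List (Cap ℝ)) (ch : List ℕ) (L : List (Con ℝ)), (∀ e ∈ C, e.1.1 < 8) →
    (∀ c ∈ L, c.1 < 8) → (∀ j ∈ ch, j < C.length) →
    sol (move C ch L) = gm (ch.map (capAt C)) '' sol L ∧ (∀ c ∈ move C ch L, c.1 < 8) ∧
    ((∀ i < 8, ∃ c ∈ L, c.1 = i) → ∀ i < 8, ∃ c ∈ move C ch L, c.1 = i))

/-- BLOCK INT: interiors of pieces are solution sets of systems of constraints. -/
def Stmt_INT : Prop := ∀ r : Rec ℝ, RecOK r → ∀ G : List (Cap ℝ), (∀ e ∈ G, e.1.1 < 8) →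
  interior (piece r G none) = sol (rectC r ++ G.map fun f => f.1) ∧
  (∀ e : Cap ℝ, e.1.1 < 8 → interior (capC r e) = sol (cneg e.1 :: rectC r) ∧
    interior (piece r G (some e)) = {z | z ∈ RI r ∧ e.1.2 < dotR e.1.1 z ∧
      ∀ f ∈ G, SubS r f.1 e.1 → f ≠ e → dotR f.1.1 z < f.1.2})

/-! ## SEM: folded states and sequences of caps -/

/-- BLOCK SEM0: structure of valid sequences. -/
def Stmt_SEM0 : Prop := ∀ r : Rec ℝ, RecOK r → ∀ G : List (Cap ℝ), VSR r G →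
  (∀ e ∈ G, e.1.1 < 8 ∧ ProperS r e.1) ∧
  (∀ e ∈ G, ∀ f ∈ G, SubS r e.1 f.1 ∨ SubS r f.1 e.1 ∨ DisjS r e.1 f.1) ∧
  (∀ e ∈ G, ∀ f ∈ G, SubS r e.1 f.1 → SubS r f.1 e.1 → e = f) ∧
  G.Nodup ∧ (stackR r G).Nodup ∧
  (∀ k, k ∈ stackR r G ↔ k = none ∨ ∃ e ∈ G, k = some e) ∧
  (∀ z ∈ RS r, ∃ k ∈ stackR r G, z ∈ piece r G k) ∧
  ∀ e : Cap ℝ, e.1.1 < 8 → ProperS r e.1 →
    (∀ f ∈ G, (SubS r e.1 f.1 ∨ DisjS r e.1 f.1) ∧ ¬ SameL e.1 f.1) →
    e ∉ G ∧ (∀ f ∈ G, ¬ SubS r f.1 e.1) ∧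
    (∀ k ∈ G, ancs r (e :: G) k = ancs r G k) ∧ ancs r (e :: G) e = e :: ancs r G e ∧
    ancs r G e = ancO r G (parent r G e) ∧ parent r G e ∈ stackR r G ∧
    capC r e ⊆ piece r G (parent r G e) ∧ piece r (e :: G) (some e) = capC r e ∧
    piece r (e :: G) (parent r G e) = piece r G (parent r G e) ∩ {z | dotR e.1.1 z ≤ e.1.2} ∧
    (∀ k ∈ stackR r G, k ≠ parent r G e → piece r (e :: G) k = piece r G k) ∧
    (∃ z ∈ piece r G (parent r G e), dotR e.1.1 z < e.1.2)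

/-- BLOCK SEM1: a valid new cap can be folded. -/
def Stmt_SEM1 : Prop := ∀ r : Rec ℝ, RecOK r → ∀ (G : List (Cap ℝ)) (e : Cap ℝ), VSR r (e :: G) →
  ∃ below above L a c up, SimpleFold (stateR r G) (stateR r (e :: G)) below above L a c up

/-- BLOCK DIR: a line whose chord is covered by creases has one of the eight directions. -/
def Stmt_DIR : Prop := ∀ m : PaperMap, m.Valid → ∀ (a : Pt) (c : ℝ), a ≠ 0 →
  (∃ z ∈ m.inner, c < a.1 * z.1 + a.2 * z.2) → (∃ z ∈ m.inner, a.1 * z.1 + a.2 * z.2 < c) →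
  (∀ z ∈ m.inner, a.1 * z.1 + a.2 * z.2 = c → z ∈ m.marked true ∪ m.marked false) →
  ∃ (i : ℕ) (d t : ℝ), i < 8 ∧ 0 < t ∧ ∀ z : Pt, a.1 * z.1 + a.2 * z.2 - c = t * (dotR i z - d)

/-- BLOCK SEM2: every simple fold is the fold along a cap. -/
def Stmt_SEM2 : Prop := ∀ m : PaperMap, m.Valid → ∀ G : List (Cap ℝ), VSR (recR m) G →
  ∀ t below above L a c up, SimpleFold (stateR (recR m) G) t below above L a c up →
    (∀ b : Bool, t.fold b ∩ m.inner ⊆ m.marked true ∪ m.marked false) →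
    ∃ e : Cap ℝ, VSR (recR m) (e :: G) ∧ t = stateR (recR m) (e :: G)

/-- The caps of `G` mark exactly the creases. -/
def Marks (m : PaperMap) (G : List (Cap ℝ)) : Prop :=
  ∀ b : Bool, ∀ z ∈ m.inner, z ∈ m.marked b ↔ ∃ e ∈ G, e.2 = b ∧ dotR e.1.1 z = e.1.2

/-- BLOCK SEM: assembly. -/
def Stmt_SEM : Prop := ∀ m : PaperMap, m.Valid →
  (SimplyFoldable m ↔ ∃ G : List (Cap ℝ), VSR (recR m) G ∧ Marks m G)

/-! ## CRE: the creases fill chords -/

/-- BLOCK CRE -/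
def Stmt_CRE : Prop := ∀ m : PaperMap, m.Valid → ∀ G : List (Cap ℝ),
  (∀ e ∈ G, e.1.1 < 8 ∧ ProperS (recR m) e.1) → G.Pairwise (fun e f => ¬ SameL e.1 f.1) →
  (Marks m G ↔ (creOK (recR m) (cresR m) = true ∧
    (∀ e ∈ G, ∃ f ∈ chords (recR m) (cresR m), f.2 = e.2 ∧ SameL e.1 f.1) ∧
    ∀ f ∈ chords (recR m) (cresR m), ∃ e ∈ G, f.2 = e.2 ∧ SameL e.1 f.1))

/-- BLOCK CHO: the list of the chords. -/
def Stmt_CHO : Prop := ∀ m : PaperMap, m.Valid →
  (∀ e ∈ chords (recR m) (cresR m), e.1.1 < 4 ∧ ProperS (recR m) e.1) ∧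
  (chords (recR m) (cresR m)).Pairwise (fun e f => ¬ SameL e.1 f.1)

/-! ## the search -/

/-- Hypotheses on a list of caps. -/
structure CapsOK (r : Rec ℝ) (C : List (Cap ℝ)) : Prop where
  rok : RecOK r
  dir : ∀ e ∈ C, e.1.1 < 8
  lam : laminar r C = true
  line : C.Pairwise (fun e f => ¬ SameL e.1 f.1)

/-- BLOCK ABS1: valid sequences of caps and of indices. -/
def Stmt_ABS1 : Prop := ∀ (r : Rec ℝ) (C : List (Cap ℝ)), CapsOK r C →
  ((∃ G : List (Cap ℝ), G.Perm C ∧ VSR r G) ↔ ∃ I : List ℕ, I.Perm (List.range C.length) ∧ VSI r C I)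

/-- BLOCK COR: order relation and corners. -/
def Stmt_COR : Prop := ∀ (r : Rec ℝ) (C : List (Cap ℝ)), CapsOK r C →
  (∀ i < C.length, isub r C i i = true) ∧
  (∀ i < C.length, ∀ j < C.length, ∀ k < C.length, isub r C i j = true → isub r C j k = true →
    isub r C i k = true) ∧
  (∀ i < C.length, ∀ j < C.length, isub r C i j = true → isub r C j i = true → i = j) ∧
  (∀ i < C.length, ∃ c < 4, inCorner r C c i = true) ∧
  (∀ c < 4, ∀ i < C.length, ∀ j < C.length, inCorner r C c i = true → inCorner r C c j = true →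
    isub r C i j = true ∨ isub r C j i = true) ∧
  (∀ c < 4, ∀ i < C.length, ∀ j < C.length, inCorner r C c i = true → isub r C i j = true →
    inCorner r C c j = true)

/-- BLOCK ABS2: the search finds all valid sequences of indices. -/
def Stmt_ABS2 : Prop := ∀ (r : Rec ℝ) (C : List (Cap ℝ)), CapsOK r C →
  ((∃ I : List ℕ, I.Perm (List.range C.length) ∧ VSI r C I) ↔ searchAll r C = true)

/-- BLOCK ORI: correctness of the algorithm over the reals (orientation of the chords). -/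
def Stmt_ORI : Prop := ∀ m : PaperMap, m.Valid →
  (SimplyFoldable m ↔ alg (recR m) (cresR m) = true)

/-! ## polynomial time -/

/-- `φ` respects the operations. -/
structure NumHom (K : Type) [Num K] (φ : K → ℝ) : Prop where
  zero : φ Num.zero = 0
  add : ∀ x y, φ (Num.add x y) = φ x + φ y
  neg : ∀ x, φ (Num.neg x) = -φ x
  lt : ∀ x y, Num.lt x y = decide (φ x < φ y)

/-- map a rectangle -/
def mapRec {K : Type} (φ : K → ℝ) (r : Rec K) : Rec ℝ := ((φ r.1.1, φ r.1.2), (φ r.2.1, φ r.2.2))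

/-- map a crease -/
def mapCr {K : Type} (φ : K → ℝ) (c : Cr K) : Cr ℝ :=
  (((φ c.1.1.1, φ c.1.1.2), (φ c.1.2.1, φ c.1.2.2)), c.2)

/-- BLOCK HOM -/
def Stmt_HOM : Prop := ∀ (K : Type) [Num K] (φ : K → ℝ), NumHom K φ → ∀ (r : Rec K)
  (L : List (Cr K)), alg r L = alg (mapRec φ r) (L.map (mapCr φ))

open MP_013ca9_lc_F in
/-- Differences of binary numbers. -/
abbrev BZ : Type := BN × BN

open MP_013ca9_lc_F in
instance : Num BZ where
  zero := (⟨0⟩, ⟨0⟩)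
  add x y := (⟨x.1.val + y.1.val⟩, ⟨x.2.val + y.2.val⟩)
  neg x := (x.2, x.1)
  lt x y := decide (x.1.val + y.2.val < y.1.val + x.2.val)

/-- BLOCK POLY -/
def Stmt_POLY : Prop := PolyF (fun p : Rec BZ × List (Cr BZ) => alg p.1 p.2)

/-- the number `(a - b) / D` -/
noncomputable def bzval (D : ℕ) (x : BZ) : ℝ := ((x.1.val : ℝ) - x.2.val) / D

/-- BLOCK PARSE (`Option Bool` is identified with `Fin 3` by `0 = none, 1 = false, 2 = true`) -/
def Stmt_PARSE : Prop := ∃ P : List (Fin 3) → Rec BZ × List (Cr BZ), PolyF P ∧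
  ∀ m : PaperMap, ∃ D : ℕ, 0 < D ∧
    mapRec (bzval D) (P ((encMap m).map fun o => match o with
      | none => 0
      | some false => 1
      | some true => 2)).1 = recR m ∧
    (P ((encMap m).map fun o => match o with
      | none => 0
      | some false => 1
      | some true => 2)).2.map (mapCr (bzval D)) = cresR m

end Pool.Agent.Work.MP_bd4052_lc
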