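import Pool.Agent.Work.MP_bd4052_lc.Defs
import Pool.Agent.Work.MP_bd4052_lc.Alg

/-!
# MP_bd4052_lc: the geometric model (sequences of caps)
-/

set_option autoImplicit false

namespace Pool.Agent.Work.MP_bd4052_lc

noncomputable section

open Classical

/-- `n_i · z` -/
def dotR (i : ℕ) (z : Pt) : ℝ := ndot i z.1 z.2

/-- the direction vector `n_i` -/
def nvec (i : ℕ) : Pt := (ndot i 1 0, ndot i 0 1)

/-- reflection in the line `n_j · z = d` -/
def rf (c : Con ℝ) (z : Pt) : Pt := refl (nvec c.1) c.2 z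

/-- solutions of a system of strict constraints -/
def sol (L : List (Con ℝ)) : Set Pt := {z | ∀ c ∈ L, dotR c.1 z < c.2}

/-- the closed rectangle -/
def RS (r : Rec ℝ) : Set Pt := {z | r.1.1 ≤ z.1 ∧ z.1 ≤ r.1.2 ∧ r.2.1 ≤ z.2 ∧ z.2 ≤ r.2.2}

/-- the open rectangle -/
def RI (r : Rec ℝ) : Set Pt := {z | r.1.1 < z.1 ∧ z.1 < r.1.2 ∧ r.2.1 < z.2 ∧ z.2 < r.2.2}

/-- a proper rectangle -/
def RecOK (r : Rec ℝ) : Prop := r.1.1 < r.1.2 ∧ r.2.1 < r.2.2

/-- the line of `e` crosses the interior of the sheet -/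
def ProperS (r : Rec ℝ) (e : Con ℝ) : Prop :=
  (∃ z ∈ RI r, e.2 < dotR e.1 z) ∧ ∃ z ∈ RI r, dotR e.1 z < e.2

/-- the cap `e` is contained in the cap `f` -/
def SubS (r : Rec ℝ) (e f : Con ℝ) : Prop := ∀ z ∈ RI r, e.2 < dotR e.1 z → f.2 < dotR f.1 z

/-- the caps are disjoint -/
def DisjS (r : Rec ℝ) (e f : Con ℝ) : Prop := ∀ z ∈ RI r, e.2 < dotR e.1 z → ¬ f.2 < dotR f.1 z

/-- the same line -/
def SameL (e f : Con ℝ) : Prop := e = f ∨ e = cneg f

/-! In all lists `G` of caps the head is the LAST fold. -/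

/-- the caps of `G` that contain `e`, innermost (latest) first -/
def ancs (r : Rec ℝ) (G : List (Cap ℝ)) (e : Cap ℝ) : List (Cap ℝ) := G.filter fun f => SubS r e.1 f.1

/-- the same for pieces (`none` is the root) -/
def ancO (r : Rec ℝ) (G : List (Cap ℝ)) : Option (Cap ℝ) → List (Cap ℝ)
  | none => []
  | some e => ancs r G e

/-- position of a piece: `gm [f₁, ..., f_n] = rf f_n ∘ ... ∘ rf f₁` -/
def gm : List (Cap ℝ) → Pt → Pt
  | [], z => z
  | f :: l, z => gm l (rf f.1 z)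

/-- the piece `k` of the sheet after the folds `G` -/
def piece (r : Rec ℝ) (G : List (Cap ℝ)) : Option (Cap ℝ) → Set Pt
  | none => {z | z ∈ RS r ∧ ∀ f ∈ G, dotR f.1.1 z ≤ f.1.2}
  | some e => {z | z ∈ RS r ∧ e.1.2 ≤ dotR e.1.1 z ∧
      ∀ f ∈ G, SubS r f.1 e.1 → f ≠ e → dotR f.1.1 z ≤ f.1.2}

/-- direction of the fold along the new cap `e` -/
def upR (r : Rec ℝ) (G : List (Cap ℝ)) (e : Cap ℝ) : Bool :=
  e.2 != decide ((ancs r G e).length % 2 = 1)

/-- the stack of the pieces, from bottom to top -/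
def stackR (r : Rec ℝ) : List (Cap ℝ) → List (Option (Cap ℝ))
  | [] => [none]
  | e :: G => if upR r G e then stackR r G ++ [some e] else some e :: stackR r G

/-- the piece that contains the new cap `e` -/
def parent (r : Rec ℝ) (G : List (Cap ℝ)) (e : Cap ℝ) : Option (Cap ℝ) := (ancs r G e).head?

/-- the part that is rotated by the fold along the cap `e` -/
def capC (r : Rec ℝ) (e : Cap ℝ) : Set Pt := {z | z ∈ RS r ∧ e.1.2 ≤ dotR e.1.1 z}

/-- the new fold `e` is not blocked -/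
def Free (r : Rec ℝ) (G : List (Cap ℝ)) (e : Cap ℝ) : Prop :=
  ∀ l₁ l₂, stackR r G = l₁ ++ parent r G e :: l₂ → ∀ k ∈ (if upR r G e then l₂ else l₁),
    interior (gm (ancs r G e) '' capC r e) ∩ interior (gm (ancO r G k) '' piece r G k) = ∅

/-- VALID SEQUENCES OF CAPS (head = last fold) -/
def VSR (r : Rec ℝ) : List (Cap ℝ) → Prop
  | [] => True
  | e :: G => VSR r G ∧ e.1.1 < 8 ∧ ProperS r e.1 ∧
      (∀ f ∈ G, (SubS r e.1 f.1 ∨ DisjS r e.1 f.1) ∧ ¬ SameL e.1 f.1) ∧ Free r G e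

/-- the flat folded state after the folds `G` -/
def stateR (r : Rec ℝ) (G : List (Cap ℝ)) : State where
  layers := (stackR r G).map fun k =>
    ⟨piece r G k, gm (ancO r G k), decide ((ancO r G k).length % 2 = 1)⟩
  fold := fun b => {z | z ∈ RS r ∧ ∃ e ∈ G, e.2 = b ∧ dotR e.1.1 z = e.1.2}

/-! ### data of a map -/

/-- the rectangle -/
def recR (m : PaperMap) : Rec ℝ := (((m.x0 : ℝ), (m.x1 : ℝ)), ((m.y0 : ℝ), (m.y1 : ℝ)))

/-- a crease -/
def crR (c : Crease) : Cr ℝ :=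
  ((((c.p.1 : ℝ), (c.p.2 : ℝ)), ((c.q.1 : ℝ), (c.q.2 : ℝ))), c.val)

/-- the creases -/
def cresR (m : PaperMap) : List (Cr ℝ) := m.creases.map crR

/-! ### valid sequences of indices (head = last fold) -/

/-- the parent piece (`0` = root, `p + 1` = cap `p`) -/
def parI (r : Rec ℝ) (C : List (Cap ℝ)) (I : List ℕ) (i : ℕ) : ℕ :=
  match I.find? (fun j => isub r C i j) with
  | none => 0
  | some p => p + 1

/-- the folds up to the fold of the parent -/
def dpI (r : Rec ℝ) (C : List (Cap ℝ)) (I : List ℕ) (i : ℕ) : List ℕ :=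
  I.dropWhile (fun j => !(isub r C i j))

/-- valid sequences of indices -/
def VSI (r : Rec ℝ) (C : List (Cap ℝ)) : List ℕ → Prop
  | [] => True
  | i :: I => VSI r C I ∧ i < C.length ∧ i ∉ I ∧
      (∀ j < C.length, isub r C i j = true → j = i ∨ j ∈ I) ∧
      unblocked r C I (dpI r C I i) (parI r C I i) i = true

end

end Pool.Agent.Work.MP_bd4052_lc
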